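import Pool.Agent.Helper17.IAN.StN

/-!
# Project IA part N (MP_953b28_co): module CVS, single edges
-/

set_option autoImplicit false

namespace Pool.Agent.Helper95.IAN

open Finset Pool.Agent.Helper93.IA Pool.Agent.Helper17.IAN

private theorem cvs_sum (ι : Type) [Fintype ι] (f y : ι → ℝ) (E K δ : ℝ) (hE0 : 0 ≤ E) (hE1 : E ≤ 1)
    (hK : 0 ≤ K) (h : ∀ i, |f i - E * y i| ≤ K * y i) (h1 : ∑ i, y i ≤ 1) (h2 : 1 - δ ≤ ∑ i, y i) :
    |∑ i, f i - E| ≤ δ + K := by
  have e1 : |∑ i, (f i - E * y i)| ≤ K * ∑ i, y i := by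
    calc |∑ i, (f i - E * y i)| ≤ ∑ i, |f i - E * y i| := Finset.abs_sum_le_sum_abs _ _
      _ ≤ ∑ i, K * y i := Finset.sum_le_sum (fun i _ => h i)
      _ = K * ∑ i, y i := by rw [Finset.mul_sum]
  have e2 : ∑ i, (f i - E * y i) = ∑ i, f i - E * ∑ i, y i := by
    rw [Finset.sum_sub_distrib, Finset.mul_sum]
  rw [e2] at e1
  have e3 : K * ∑ i, y i ≤ K := by nlinarith
  have e4 : |E * ∑ i, y i - E| ≤ δ := by
    have : E * ∑ i, y i - E = -(E * (1 - ∑ i, y i)) := by ring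
    rw [this, abs_neg, abs_of_nonneg (mul_nonneg hE0 (by linarith))]
    nlinarith
  have e5 : ∑ i, f i - E = (∑ i, f i - E * ∑ i, y i) + (E * ∑ i, y i - E) := by ring
  rw [e5]
  refine (abs_add_le _ _).trans ?_
  linarith

theorem hCVS : StCVS := by
  intro hPRD hPRA hEUS α β γ _ _ _ _ _ _ n Λ δ x hδ hθ hθ' hD a b c hx
  obtain ⟨-, -, -, hex⟩ := hPRA hPRD α β γ x hD.x0 hD.uA
  have hE0 : (0 : ℝ) ≤ Real.exp (-2) := (Real.exp_pos _).le
  have hE1 : Real.exp (-2) ≤ 1 := by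
    rw [Real.exp_le_one_iff]
    norm_num
  have hK : (0 : ℝ) ≤ 2 * δ + 4 * (Λ / n) := by linarith
  have hu := hEUS α β γ n Λ δ x hδ hθ hθ' hD
  have hfin : (δ + (2 * δ + 4 * (Λ / n)) : ℝ) = 3 * δ + 4 * (Λ / n) := by ring
  refine ⟨?_, ?_, ?_⟩
  · have e : Pr x (fun σ => covA σ a b) = ∑ c', Pr x (fun σ => used σ a b c') := by
      refine hex γ (fun c' σ => used σ a b c') ?_
      intro σ i j hi hj
      exact Option.some.inj (hi.1.symm.trans hj.1)
    rw [e, ← hfin]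
    exact cvs_sum γ _ (fun c' => x a b c') _ _ δ hE0 hE1 hK (fun c' => hu a b c') (hD.uA a b)
      (hD.lA a b c hx)
  · have e : Pr x (fun σ => covB σ b c) = ∑ a', Pr x (fun σ => used σ a' b c) := by
      refine hex α (fun a' σ => used σ a' b c) ?_
      intro σ i j hi hj
      by_contra hij
      exact hi.2.2 j (fun h => hij h.symm) hj.1
    rw [e, ← hfin]
    exact cvs_sum α _ (fun a' => x a' b c) _ _ δ hE0 hE1 hK (fun a' => hu a' b c) (hD.uB b c)
      (hD.lB a b c hx)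
  · have e : Pr x (fun σ => covC σ c a) = ∑ b', Pr x (fun σ => used σ a b' c) := by
      refine hex β (fun b' σ => used σ a b' c) ?_
      intro σ i j hi hj
      by_contra hij
      exact hi.2.1 j (fun h => hij h.symm) hj.1
    rw [e, ← hfin]
    exact cvs_sum β _ (fun b' => x a b' c) _ _ δ hE0 hE1 hK (fun b' => hu a b' c) (hD.uC c a)
      (hD.lC a b c hx)

end Pool.Agent.Helper95.IAN
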